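import Pool.Agent.Y63.NV.Stm
import Pool.Agent.Y63.AWC.Wt

/-!
# Project NV: from the single element statements to the blockwise statement
-/

set_option autoImplicit false
set_option linter.unusedSectionVars false

open scoped Classical

noncomputable section

namespace Pool.Agent.Y286.NV

open Pool.Agent.Y63.NV
open Pool.Agent.Y63.AWC (IsIrreducibleCharacter pSubgroupSetoid ConjugateSubgroups orbit_sum
  normalizer_map irr_comp)
open Pool.Agent.Helper884.IC (IsIrrChar irr_finite)

variable {F : Type} [Field F] {Γ : Type} [Group Γ]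

/-- the space of the central elements -/
def ZG (F : Type) [Field F] (G : Subgroup Γ) : Submodule F (Γ → F) where
  carrier := {z | InZ G z}
  zero_mem' := ⟨fun _ _ => rfl, fun _ _ => rfl⟩
  add_mem' := by
    rintro a b ha hb
    exact ⟨fun g x => by rw [Pi.add_apply, Pi.add_apply, ha.conj, hb.conj],
      fun x hx => by rw [Pi.add_apply, ha.supp x hx, hb.supp x hx, add_zero]⟩
  smul_mem' := by
    rintro c a ha
    exact ⟨fun g x => by rw [Pi.smul_apply, Pi.smul_apply, ha.conj],
      fun x hx => by rw [Pi.smul_apply, ha.supp x hx, smul_zero]⟩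

lemma res_classFun {G : Subgroup Γ} {z : Γ → F} (hz : InZ G z) (N : Subgroup Γ) :
    IsClassFun (fun x : N => z x) := fun g x => hz.conj g x

/-- the functional of a block -/
def blkF {G : Subgroup Γ} {B : (G → F) → F} (hB : IsBlock B) : ZG F G →ₗ[F] F where
  toFun z := B (fun x : G => z.1 x)
  map_add' a b := hB.add _ _ (res_classFun a.2 G) (res_classFun b.2 G)
  map_smul' c a := hB.smul c _ (res_classFun a.2 G)

lemma blkF_apply {G : Subgroup Γ} {B : (G → F) → F} (hB : IsBlock B) (z : ZG F G) :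
    blkF hB z = B (fun x : G => z.1 x) := rfl

/-- the functional of a weight -/
def wtF [Finite Γ] (G : Subgroup Γ) (red : integralClosure ℤ ℂ →+* F) (N : Subgroup Γ)
    (χ : N → ℂ) : ZG F G →ₗ[F] F where
  toFun z := centralValue red χ (fun x => z.1 x)
  map_add' a b := by
    unfold centralValue
    rw [← finsum_add_distrib (Set.toFinite _) (Set.toFinite _)]
    refine finsum_congr fun C => ?_
    rw [← add_mul]
    rfl
  map_smul' c a := by
    unfold centralValue
    rw [RingHom.id_apply, smul_finsum' c (Set.toFinite _)]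
    refine finsum_congr fun C => ?_
    rw [smul_eq_mul, ← mul_assoc]
    rfl

lemma wtF_apply [Finite Γ] (G : Subgroup Γ) (red : integralClosure ℤ ℂ →+* F) (N : Subgroup Γ)
    (χ : N → ℂ) (z : ZG F G) : wtF G red N χ z = centralValue red χ (fun x => z.1 x) := rfl

/-! ### transport along isomorphisms -/

lemma isWt_comp {p : ℕ} {J J' : Type} [Group J] [Group J'] (e : J ≃* J') {Q : Subgroup J}
    {Q' : Subgroup J'} (hQ : ∀ x, x ∈ Q ↔ e x ∈ Q') {χ : J' → ℂ} (h : IsWt p Q' χ) :
    IsWt p Q (fun x => χ (e x)) := by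
  refine ⟨irr_comp e h.irr, ?_, ?_⟩
  · intro q hq x
    show χ (e (q * x)) = χ (e x)
    rw [map_mul]
    exact h.inflated _ ((hQ q).mp hq) _
  · obtain ⟨n, h1, h2⟩ := h.defectZero
    refine ⟨n, by rw [map_one]; exact h1, ?_⟩
    have e1 : Nat.card Q = Nat.card Q' := Nat.card_congr (e.toEquiv.subtypeEquiv hQ)
    rw [e1, Nat.card_congr e.toEquiv]
    exact h2

/-- the bijection of the conjugacy classes -/
def ccE {J J' : Type} [Group J] [Group J'] (e : J ≃* J') : ConjClasses J ≃ ConjClasses J' where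
  toFun := ConjClasses.map e.toMonoidHom
  invFun := ConjClasses.map e.symm.toMonoidHom
  left_inv := by
    intro C
    obtain ⟨a, rfl⟩ := ConjClasses.exists_rep C
    show ConjClasses.mk (e.symm (e a)) = ConjClasses.mk a
    rw [e.symm_apply_apply]
  right_inv := by
    intro C
    obtain ⟨a, rfl⟩ := ConjClasses.exists_rep C
    show ConjClasses.mk (e (e.symm a)) = ConjClasses.mk a
    rw [e.apply_symm_apply]

lemma ccE_mk {J J' : Type} [Group J] [Group J'] (e : J ≃* J') (a : J) :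
    ccE e (ConjClasses.mk a) = ConjClasses.mk (e a) := rfl

lemma mk_out {J : Type} [Group J] (C : ConjClasses J) : ConjClasses.mk C.out = C :=
  Quotient.out_eq C

lemma centralValue_comp (red : integralClosure ℤ ℂ →+* F) {J J' : Type} [Group J] [Group J']
    (e : J ≃* J') (χ : J' → ℂ) (hχ : ∀ a b : J', IsConj a b → χ a = χ b) (f : J' → F)
    (hf : IsClassFun f) :
    centralValue red (fun x => χ (e x)) (fun x => f (e x)) = centralValue red χ f := by
  unfold centralValue
  rw [← finsum_comp_equiv (ccE e)]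
  refine finsum_congr fun C => ?_
  have h1 : IsConj (e C.out) (ccE e C).out := by
    rw [← ConjClasses.mk_eq_mk_iff_isConj, mk_out]
    conv_rhs => rw [← mk_out C]
    rw [ccE_mk]
  have h2 : χ (e C.out) = χ (ccE e C).out := hχ _ _ h1
  have h3 : f (e C.out) = f (ccE e C).out := by
    obtain ⟨c, hc⟩ := isConj_iff.mp h1
    rw [← hc, hf]
  have h4 : Nat.card C.carrier = Nat.card (ccE e C).carrier := by
    refine Nat.card_congr (e.toEquiv.subtypeEquiv fun x => ?_)
    rw [ConjClasses.mem_carrier_iff_mk_eq, ConjClasses.mem_carrier_iff_mk_eq]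
    show _ ↔ ConjClasses.mk (e x) = ccE e C
    rw [← ccE_mk, (ccE e).injective.eq_iff]
  show f (e C.out) * redC red ((Nat.card C.carrier : ℂ) * χ (e C.out) / χ (e 1)) = _
  rw [h2, h3, h4, map_one]

lemma irr_class {J : Type} [Group J] [Finite J] {χ : J → ℂ} (h : IsIrreducibleCharacter χ)
    (a b : J) (hab : IsConj a b) : χ a = χ b := by
  have := Fintype.ofFinite J
  obtain ⟨c, hc⟩ := isConj_iff.mp hab
  have h1 : IsIrrChar χ := h
  rw [← hc]
  exact (h1.isClass a c).symm

/-- conjugation maps normalisers to normalisers -/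
def nE (g : Γ) (Q : Subgroup Γ) : Subgroup.normalizer (Q : Set Γ) ≃*
    Subgroup.normalizer ((Q.map (MulAut.conj g).toMonoidHom : Subgroup Γ) : Set Γ) :=
  ((MulAut.conj g).subgroupMap (Subgroup.normalizer (Q : Set Γ))).trans
    (MulEquiv.subgroupCongr (normalizer_map (MulAut.conj g) Q))

lemma nE_coe (g : Γ) (Q : Subgroup Γ) (x : Subgroup.normalizer (Q : Set Γ)) :
    ((nE g Q x : Subgroup.normalizer ((Q.map (MulAut.conj g).toMonoidHom : Subgroup Γ) : Set Γ)) : Γ)
      = g * x * g⁻¹ := rfl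

lemma mem_conj {g : Γ} {Q : Subgroup Γ} {x : Γ} :
    g * x * g⁻¹ ∈ Q.map (MulAut.conj g).toMonoidHom ↔ x ∈ Q := by
  constructor
  · rintro ⟨y, hy, hyx⟩
    have : g * y * g⁻¹ = g * x * g⁻¹ := hyx
    have : y = x := by simpa using this
    rwa [← this]
  · intro hx
    exact ⟨x, hx, rfl⟩

lemma numDz_conj [Finite Γ] (p : ℕ) (red : integralClosure ℤ ℂ →+* F) (G : Subgroup Γ)
    (B : (G → F) → F) (g : Γ) (Q : Subgroup Γ) :
    numDz p red G (Q.map (MulAut.conj g).toMonoidHom) B = numDz p red G Q B := by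
  have hQ : ∀ x : Subgroup.normalizer (Q : Set Γ),
      x ∈ Q.subgroupOf (Subgroup.normalizer (Q : Set Γ)) ↔
      nE g Q x ∈ (Q.map (MulAut.conj g).toMonoidHom).subgroupOf
        (Subgroup.normalizer ((Q.map (MulAut.conj g).toMonoidHom : Subgroup Γ) : Set Γ)) := by
    intro x
    rw [Subgroup.mem_subgroupOf, Subgroup.mem_subgroupOf, nE_coe, mem_conj]
  have hQ' : ∀ x, x ∈ (Q.map (MulAut.conj g).toMonoidHom).subgroupOf
        (Subgroup.normalizer ((Q.map (MulAut.conj g).toMonoidHom : Subgroup Γ) : Set Γ)) ↔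
      (nE g Q).symm x ∈ Q.subgroupOf (Subgroup.normalizer (Q : Set Γ)) := by
    intro x
    rw [hQ, (nE g Q).apply_symm_apply]
  have hres : ∀ z : Γ → F, InZ G z → (fun x : Subgroup.normalizer (Q : Set Γ) =>
      (fun y : Subgroup.normalizer ((Q.map (MulAut.conj g).toMonoidHom : Subgroup Γ) : Set Γ) =>
        z y) (nE g Q x)) = fun x : Subgroup.normalizer (Q : Set Γ) => z x := by
    intro z hz
    funext x
    show z (nE g Q x : Subgroup.normalizer _) = z x
    rw [nE_coe]
    exact hz.conj g x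
  have hval : ∀ (χ : Subgroup.normalizer
      ((Q.map (MulAut.conj g).toMonoidHom : Subgroup Γ) : Set Γ) → ℂ), IsIrreducibleCharacter χ →
      ∀ z : Γ → F, InZ G z → centralValue red (fun x => χ (nE g Q x)) (fun x => z x) =
        centralValue red χ (fun x => z x) := by
    intro χ hχ z hz
    rw [← centralValue_comp red (nE g Q) χ (irr_class hχ) (fun x => z x) (res_classFun hz _),
      hres z hz]
  unfold numDz
  refine Nat.card_congr
    { toFun := fun χ => ⟨fun x => χ.1 (nE g Q x), isWt_comp (nE g Q) hQ χ.2.1, ?_⟩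
      invFun := fun χ => ⟨fun x => χ.1 ((nE g Q).symm x), isWt_comp (nE g Q).symm hQ' χ.2.1, ?_⟩
      left_inv := ?_
      right_inv := ?_ }
  · intro z hz
    rw [hval χ.1 χ.2.1.irr z hz]
    exact χ.2.2 z hz
  · intro z hz
    have h1 := hval (fun x => χ.1 ((nE g Q).symm x)) (irr_comp (nE g Q).symm χ.2.1.irr) z hz
    have h2 : (fun x => (fun x => χ.1 ((nE g Q).symm x)) (nE g Q x)) = χ.1 := by
      funext x
      show χ.1 ((nE g Q).symm (nE g Q x)) = χ.1 x
      rw [(nE g Q).symm_apply_apply]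
    rw [h2] at h1
    rw [← h1]
    exact χ.2.2 z hz
  · intro χ
    apply Subtype.ext
    funext x
    show χ.1 (nE g Q ((nE g Q).symm x)) = χ.1 x
    rw [(nE g Q).apply_symm_apply]
  · intro χ
    apply Subtype.ext
    funext x
    show χ.1 ((nE g Q).symm (nE g Q x)) = χ.1 x
    rw [(nE g Q).symm_apply_apply]

lemma sup_conj (G : Subgroup Γ) [hG : G.Normal] (g : Γ) (Q : Subgroup Γ) :
    G ⊔ Q.map (MulAut.conj g).toMonoidHom = ⊤ ↔ G ⊔ Q = ⊤ := by
  have h1 : G.map (MulAut.conj g).toMonoidHom = G := by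
    ext x
    constructor
    · rintro ⟨y, hy, rfl⟩
      exact hG.conj_mem y hy g
    · intro hx
      refine ⟨g⁻¹ * x * g, ?_, ?_⟩
      · have := hG.conj_mem x hx g⁻¹
        rwa [inv_inv] at this
      · show g * (g⁻¹ * x * g) * g⁻¹ = x
        group
  have h2 : G ⊔ Q.map (MulAut.conj g).toMonoidHom = (G ⊔ Q).map (MulAut.conj g).toMonoidHom := by
    rw [Subgroup.map_sup, h1]
  rw [h2]
  constructor
  · intro h
    rw [eq_top_iff]
    intro x _
    have : g * x * g⁻¹ ∈ (G ⊔ Q).map (MulAut.conj g).toMonoidHom := by rw [h]; trivial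
    exact mem_conj.mp this
  · intro h
    rw [h, eq_top_iff]
    intro x _
    have : x = g * (g⁻¹ * x * g) * g⁻¹ := by group
    rw [this]
    exact mem_conj.mpr trivial

/-- the number of weights as a weighted sum over all `p`-subgroups -/
lemma orbit_weights [Finite Γ] (p : ℕ) (f : Subgroup Γ → ℕ)
    (hf : ∀ (g : Γ) (Q : Subgroup Γ), f (Q.map (MulAut.conj g).toMonoidHom) = f Q) :
    Nat.card Γ * ∑ᶠ c : Quotient (pSubgroupSetoid p Γ), f c.out.1 =
      ∑ᶠ Q : {Q : Subgroup Γ // IsPGroup p Q}, Nat.card (Subgroup.normalizer (Q.1 : Set Γ)) * f Q.1 := by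
  have : Fintype Γ := Fintype.ofFinite Γ
  have hfin : Finite {Q : Subgroup Γ // IsPGroup p Q} := inferInstance
  have : Fintype {Q : Subgroup Γ // IsPGroup p Q} := Fintype.ofFinite _
  let _ : MulAction Γ {Q : Subgroup Γ // IsPGroup p Q} :=
    { smul := fun g Q => ⟨Q.1.map (MulAut.conj g).toMonoidHom, Q.2.map _⟩
      one_smul := fun Q => by
        apply Subtype.ext
        change Q.1.map (MulAut.conj (1 : Γ)).toMonoidHom = Q.1
        ext x
        simp [Subgroup.mem_map]
      mul_smul := fun g h Q => by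
        apply Subtype.ext
        change Q.1.map (MulAut.conj (g * h)).toMonoidHom =
          (Q.1.map (MulAut.conj h).toMonoidHom).map (MulAut.conj g).toMonoidHom
        rw [Subgroup.map_map]
        congr 1
        ext x
        simp [mul_assoc] }
  have hsm : ∀ (g : Γ) (Q : {Q : Subgroup Γ // IsPGroup p Q}),
      (g • Q).1 = Q.1.map (MulAut.conj g).toMonoidHom := fun _ _ => rfl
  have h := orbit_sum (G := Γ) (pSubgroupSetoid p Γ) (by
    intro Q R
    change (∃ g : Γ, R.1 = Q.1.map (MulAut.conj g).toMonoidHom) ↔ _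
    constructor
    · rintro ⟨g, hg⟩
      exact ⟨g, Subtype.ext (by rw [hsm, hg])⟩
    · rintro ⟨g, hg⟩
      exact ⟨g, by rw [← hg, hsm]⟩) (fun Q => f Q.1) (by
      rintro Q R ⟨g, hg⟩
      rw [hg, hf])
  rw [h, finsum_eq_sum_of_fintype]
  refine Finset.sum_congr rfl fun Q _ => ?_
  congr 1
  refine Nat.card_congr (Equiv.subtypeEquivRight fun g => ?_)
  rw [MulAction.mem_stabilizer_iff, Subtype.ext_iff, hsm, Subgroup.mem_normalizer_iff]
  constructor
  · intro h3 x
    have h4 := mem_conj (g := g) (Q := Q.1) (x := x)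
    rw [h3] at h4
    exact h4.symm
  · intro h3
    ext x
    constructor
    · rintro ⟨y, hy, rfl⟩
      exact (h3 y).mp hy
    · intro hx
      refine ⟨g⁻¹ * x * g, (h3 _).mpr ?_, ?_⟩
      · have : g * (g⁻¹ * x * g) * g⁻¹ = x := by group
        rw [this]
        exact hx
      · change g * (g⁻¹ * x * g) * g⁻¹ = x
        group

/-- the block of an invariant trace is invariant -/
lemma inv_block [Finite Γ] {G : Subgroup Γ} [hG : G.Normal] {φ : G → F} {B' : (G → F) → F}
    (hφ : IsInvUnder ⊤ φ) (hne : ∃ x, φ x ≠ 0)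
    (hB' : ∀ f : G → F, IsClassFun f → ∀ x : G, ∑ᶠ g : G, f g * φ (g * x) = B' f * φ x) :
    IsInvBlock G B' := by
  intro g f f' hf hff'
  obtain ⟨y, hy⟩ := hne
  -- conjugation by `g` on `G`
  let cg : G ≃ G :=
    { toFun := fun x => ⟨g * x * g⁻¹, hG.conj_mem x x.2 g⟩
      invFun := fun x => ⟨g⁻¹ * x * g, by
        have := hG.conj_mem x x.2 g⁻¹
        rwa [inv_inv] at this⟩
      left_inv := fun x => by
        apply Subtype.ext
        show g⁻¹ * (g * x * g⁻¹) * g = x
        group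
      right_inv := fun x => by
        apply Subtype.ext
        show g * (g⁻¹ * x * g) * g⁻¹ = x
        group }
  have hcg : ∀ x : G, f' (cg x) = f x := fun x => hff' x (cg x) rfl
  have hf' : IsClassFun f' := by
    intro k x
    have h1 : f' (k * x * k⁻¹) = f (cg.symm (k * x * k⁻¹)) := by
      rw [← hcg, cg.apply_symm_apply]
    have h2 : f' x = f (cg.symm x) := by rw [← hcg, cg.apply_symm_apply]
    have h3 : cg.symm (k * x * k⁻¹) = cg.symm k * cg.symm x * (cg.symm k)⁻¹ := by
      apply Subtype.ext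
      show g⁻¹ * (k * x * (k : Γ)⁻¹) * g = (g⁻¹ * k * g) * (g⁻¹ * x * g) * (g⁻¹ * k * g)⁻¹
      group
    rw [h1, h2, h3, hf]
  have e1 := hB' f' hf' y
  have e2 := hB' f hf (cg.symm y)
  have h4 : φ (cg.symm y) = φ y := (hφ g trivial (cg.symm y) y (by
    show (y : Γ) = g * (g⁻¹ * y * g) * g⁻¹
    group)).symm
  have h5 : ∑ᶠ h : G, f' h * φ (h * y) = ∑ᶠ x : G, f x * φ (x * cg.symm y) := by
    rw [← finsum_comp_equiv cg]
    refine finsum_congr fun x => ?_
    rw [hcg]
    congr 1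
    refine hφ g trivial (x * cg.symm y) (cg x * y) ?_
    show g * x * g⁻¹ * y = g * (x * (g⁻¹ * y * g)) * g⁻¹
    group
  rw [h5, e2, h4] at e1
  exact (mul_right_cancel₀ hy e1).symm

/-- the choice of a central element -/
lemma exists_sep [Infinite F] {Z : Type} [AddCommGroup Z] [Module F Z] {I : Type} [Finite I]
    (μ : I → (Z →ₗ[F] F)) (b : Z →ₗ[F] F) : ∃ z : Z, ∀ i, μ i z = b z → μ i = b := by
  by_contra hcon
  push Not at hcon
  have hcov : ⋃ i : {i : I // μ i ≠ b}, ((LinearMap.ker (μ i.1 - b) : Submodule F Z) : Set Z)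
      = Set.univ := by
    rw [Set.eq_univ_iff_forall]
    intro z
    obtain ⟨i, hi1, hi2⟩ := hcon z
    rw [Set.mem_iUnion]
    refine ⟨⟨i, hi2⟩, ?_⟩
    rw [SetLike.mem_coe, LinearMap.mem_ker, LinearMap.sub_apply, hi1, sub_self]
  obtain ⟨i, hi⟩ := Subspace.exists_eq_top_of_iUnion_eq_univ hcov
  rw [LinearMap.ker_eq_top, sub_eq_zero] at hi
  exact i.2 hi

/-- FIN, with the finiteness of the number of irreducible traces -/
theorem fin (h0 : S_IRR) (h1 : S_SCHUR) (h3 : S_RINJ) : S_FIN := by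
  intro p _ F _ _ _ red Γ _ _ G hG hpG hLW B hB hBinv
  have : Fintype Γ := Fintype.ofFinite Γ
  have hInf : Infinite F := inferInstance
  -- the blocks of the irreducible traces
  have hfinφ : Finite {φ : G → F // IsIrrTrace φ} := (h0 F G).1.to_subtype
  choose hne Bφ hBφ hact using fun φ : {φ : G → F // IsIrrTrace φ} => h1 F G φ.1 φ.2
  have hfinχ : ∀ Q : Subgroup Γ, Finite {χ : Subgroup.normalizer (Q : Set Γ) → ℂ //
      IsIrreducibleCharacter χ} := by
    intro Q
    have : Fintype (Subgroup.normalizer (Q : Set Γ)) := Fintype.ofFinite _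
    exact (irr_finite (G := Subgroup.normalizer (Q : Set Γ))).to_subtype
  -- the labels
  let I : Type := {φ : G → F // IsIrrTrace φ} ⊕
    (Σ Q : Subgroup Γ, {χ : Subgroup.normalizer (Q : Set Γ) → ℂ // IsIrreducibleCharacter χ})
  let μ : I → (ZG F G →ₗ[F] F) := fun i =>
    Sum.elim (fun φ => blkF (hBφ φ)) (fun q => wtF G red _ q.2.1) i
  obtain ⟨z, hz⟩ := exists_sep μ (blkF hB)
  set c : F := blkF hB z with hc
  have hLWz := hLW z.1 z.2 c
  -- the left side
  have hL : Lsum G ⊤ z.1 c = (Nat.card Γ : ℤ) * numIBr G B := by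
    unfold Lsum
    rw [if_pos (sup_top_eq G), inf_top_eq]
    have e1 : Nat.card (⊤ : Subgroup Γ) = Nat.card Γ := Nat.card_congr Subgroup.topEquiv.toEquiv
    rw [e1]
    congr 2
    unfold Lnum numIBr
    refine Nat.card_congr (Equiv.subtypeEquivRight fun φ => ?_)
    constructor
    · rintro ⟨hφ, hinv, hzφ⟩
      refine ⟨hφ, hinv, ?_⟩
      obtain ⟨y, hy⟩ := hne ⟨φ, hφ⟩
      have h4 : Bφ ⟨φ, hφ⟩ (fun x : G => z.1 x) = c := by
        have h5 := hact ⟨φ, hφ⟩ (fun x : G => z.1 x) (res_classFun z.2 G) y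
        have h6 := hzφ y
        exact mul_right_cancel₀ hy (h5.symm.trans h6)
      have h5 : blkF (hBφ ⟨φ, hφ⟩) = blkF hB := hz (Sum.inl ⟨φ, hφ⟩) h4
      have hinvB : IsInvBlock G (Bφ ⟨φ, hφ⟩) := inv_block hinv ⟨y, hy⟩ (hact ⟨φ, hφ⟩)
      have h6 := h3 p F Γ G hpG (Bφ ⟨φ, hφ⟩) B (hBφ _) hB hinvB hBinv (fun z' hz' =>
        LinearMap.congr_fun h5 (⟨z', hz'⟩ : ZG F G))
      intro f hf x
      rw [← h6 f hf]
      exact hact ⟨φ, hφ⟩ f hf x
    · rintro ⟨hφ, hinv, hzφ⟩
      exact ⟨hφ, hinv, fun x => hzφ _ (res_classFun z.2 G) x⟩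
  -- the right side
  set f : Subgroup Γ → ℕ := fun Q => if G ⊔ Q = ⊤ then numDz p red G Q B else 0 with hf
  have hfc : ∀ (g : Γ) (Q : Subgroup Γ), f (Q.map (MulAut.conj g).toMonoidHom) = f Q := by
    intro g Q
    simp only [hf]
    rw [numDz_conj, propext (sup_conj G g Q)]
  have hNw : ∀ Q : Subgroup Γ, Nw p red (Q.subgroupOf (⊤ ⊓ Subgroup.normalizer (Q : Set Γ)))
      (fun x => z.1 x) c = numDz p red G Q B := by
    intro Q
    rw [top_inf_eq]
    unfold Nw numDz
    refine Nat.card_congr (Equiv.subtypeEquivRight fun χ => ?_)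
    constructor
    · rintro ⟨hw, hv⟩
      refine ⟨hw, fun z' hz' => ?_⟩
      have h5 : wtF G red _ χ = blkF hB := hz (Sum.inr ⟨Q, χ, hw.irr⟩) hv
      exact LinearMap.congr_fun h5 (⟨z', hz'⟩ : ZG F G)
    · rintro ⟨hw, hv⟩
      exact ⟨hw, hv z.1 z.2⟩
  have hW : Wsum p red G ⊤ z.1 c = (Nat.card Γ : ℤ) *
      ((∑ᶠ c : Quotient (pSubgroupSetoid p Γ), f c.out.1 : ℕ) : ℤ) := by
    rw [← Nat.cast_mul, orbit_weights p f hfc]
    have : Fintype {Q : Subgroup Γ // IsPGroup p Q} := Fintype.ofFinite _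
    have : Fintype (Subgroup Γ) := Fintype.ofFinite _
    unfold Wsum
    rw [finsum_eq_sum_of_fintype, finsum_eq_sum_of_fintype, Nat.cast_sum]
    have h5 : ∀ Q : Subgroup Γ, (if IsPGroup p Q ∧ Q ≤ (⊤ : Subgroup Γ) ∧ G ⊔ Q = ⊤ then
        (Nat.card ↥((⊤ : Subgroup Γ) ⊓ Subgroup.normalizer (Q : Set Γ)) : ℤ) *
        Nw p red (Q.subgroupOf (⊤ ⊓ Subgroup.normalizer (Q : Set Γ))) (fun x => z.1 x) c else 0)
        = if IsPGroup p Q then ((Nat.card (Subgroup.normalizer (Q : Set Γ)) * f Q : ℕ) : ℤ)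
          else 0 := by
      intro Q
      rw [hNw]
      have e2 : Nat.card ↥((⊤ : Subgroup Γ) ⊓ Subgroup.normalizer (Q : Set Γ)) =
          Nat.card (Subgroup.normalizer (Q : Set Γ)) := by rw [top_inf_eq]
      rw [e2]
      by_cases hQ : IsPGroup p Q
      · by_cases hGQ : G ⊔ Q = ⊤
        · rw [if_pos ⟨hQ, le_top, hGQ⟩, if_pos hQ]
          simp only [hf]
          rw [if_pos hGQ, Nat.cast_mul]
        · rw [if_neg (fun h => hGQ h.2.2), if_pos hQ]
          simp only [hf]
          rw [if_neg hGQ, mul_zero, Nat.cast_zero]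
      · rw [if_neg (fun h => hQ h.1), if_neg hQ]
    rw [Finset.sum_congr rfl fun Q _ => h5 Q, ← Finset.sum_filter]
    exact Finset.sum_subtype (p := fun Q : Subgroup Γ => IsPGroup p Q)
      (Finset.univ.filter fun Q : Subgroup Γ => IsPGroup p Q) (by simp)
      (fun Q => ((Nat.card (Subgroup.normalizer (Q : Set Γ)) * f Q : ℕ) : ℤ))
  rw [hL, hW] at hLWz
  have hpos : (Nat.card Γ : ℤ) ≠ 0 := by exact_mod_cast Nat.card_pos.ne'
  have h6 := mul_left_cancel₀ hpos hLWz
  exact_mod_cast h6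

end Pool.Agent.Y286.NV
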