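import Pool.Agent.Y63.NV.Stm4
import Pool.Agent.Y286.NV.Fin

/-!
# Project NV, part 4: blocks of `Γ` from the elements supported on a normal subgroup of index `p`
-/

set_option autoImplicit false
set_option linter.unusedSectionVars false

open scoped Classical

noncomputable section

namespace Pool.Agent.Y286.NV

open Pool.Agent.Y63.NV
open Pool.Agent.Y63.AWC (IsIrreducibleCharacter pSubgroupSetoid)
open Pool.Agent.Helper884.IC (IsIrrChar irr_finite)

variable {F : Type} [Field F] {Γ : Type} [Group Γ]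

lemma conv_class {f g : Γ → F} (hf : IsClassFun f) (hg : IsClassFun g) :
    IsClassFun (conv f g) := by
  intro a x
  unfold conv
  rw [← finsum_comp_equiv (MulAut.conj a).toEquiv]
  refine finsum_congr fun y => ?_
  show f (a * y * a⁻¹) * g ((a * y * a⁻¹)⁻¹ * (a * x * a⁻¹)) = f y * g (y⁻¹ * x)
  rw [hf, show (a * y * a⁻¹)⁻¹ * (a * x * a⁻¹) = a * (y⁻¹ * x) * a⁻¹ by group, hg]

lemma single_class : IsClassFun (Pi.single (1 : Γ) (1 : F)) := by
  intro g x
  by_cases h : x = 1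
  · subst h
    rw [mul_one, mul_inv_cancel]
  · rw [Pi.single_eq_of_ne h, Pi.single_eq_of_ne]
    intro h'
    apply h
    rw [mul_inv_eq_one] at h'
    exact mul_eq_left.mp h'

/-- convolution powers -/
def cp (f : Γ → F) : ℕ → (Γ → F)
  | 0 => Pi.single 1 1
  | n + 1 => conv f (cp f n)

lemma cp_class {f : Γ → F} (hf : IsClassFun f) (n : ℕ) : IsClassFun (cp f n) := by
  induction n with
  | zero => exact single_class
  | succ n ih => exact conv_class hf ih

lemma block_cp {B : (Γ → F) → F} (hB : IsBlock B) {f : Γ → F} (hf : IsClassFun f) (n : ℕ) :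
    B (cp f n) = B f ^ n := by
  induction n with
  | zero => rw [pow_zero]; exact hB.one
  | succ n ih =>
    show B (conv f (cp f n)) = _
    rw [hB.mul _ _ hf (cp_class hf n), ih, pow_succ, mul_comm]

lemma cp_supp {G : Subgroup Γ} [G.Normal] {f : Γ → F} {q : Γ ⧸ G}
    (hf : ∀ x : Γ, (x : Γ ⧸ G) ≠ q → f x = 0) (n : ℕ) :
    ∀ x : Γ, (x : Γ ⧸ G) ≠ q ^ n → cp f n x = 0 := by
  induction n with
  | zero =>
    intro x hx
    show (Pi.single 1 1 : Γ → F) x = 0
    rw [Pi.single_eq_of_ne]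
    rintro rfl
    exact hx (by rw [pow_zero]; rfl)
  | succ n ih =>
    intro x hx
    show ∑ᶠ y : Γ, f y * cp f n (y⁻¹ * x) = 0
    have h0 : ∀ y : Γ, f y * cp f n (y⁻¹ * x) = 0 := by
      intro y
      by_cases h1 : (y : Γ ⧸ G) = q
      · rw [ih (y⁻¹ * x), mul_zero]
        intro h2
        apply hx
        rw [QuotientGroup.mk_mul, QuotientGroup.mk_inv, h1] at h2
        rw [pow_succ', ← h2, mul_inv_cancel_left]
      · rw [hf y h1, zero_mul]
    rw [finsum_congr h0, finsum_zero]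

/-- the part of a function on a coset -/
def cosf (G : Subgroup Γ) (f : Γ → F) (q : Γ ⧸ G) : Γ → F :=
  fun x => if (x : Γ ⧸ G) = q then f x else 0

lemma cosf_class {G : Subgroup Γ} [G.Normal] (hab : ∀ a b : Γ ⧸ G, a * b = b * a) {f : Γ → F}
    (hf : IsClassFun f) (q : Γ ⧸ G) : IsClassFun (cosf G f q) := by
  intro g x
  unfold cosf
  have h1 : ((g * x * g⁻¹ : Γ) : Γ ⧸ G) = x := by
    rw [QuotientGroup.mk_mul, QuotientGroup.mk_mul, QuotientGroup.mk_inv, hab (g : Γ ⧸ G),
      mul_inv_cancel_right]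
  rw [hf, h1]

/-- blocks of `Γ` which agree on the central elements supported on `G` are equal -/
lemma frob [Finite Γ] (p : ℕ) [Fact p.Prime] [CharP F p] {G : Subgroup Γ} [G.Normal]
    (hG : Nat.card (Γ ⧸ G) = p) {B B' : (Γ → F) → F} (hB : IsBlock B) (hB' : IsBlock B')
    (h : ∀ z : Γ → F, InZ G z → B z = B' z) (f : Γ → F) (hf : IsClassFun f) : B f = B' f := by
  have hcyc : IsCyclic (Γ ⧸ G) := isCyclic_of_prime_card hG
  have hab : ∀ a b : Γ ⧸ G, a * b = b * a := (IsCyclic.commGroup (α := Γ ⧸ G)).mul_comm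
  have h1 : ∀ q, B (cosf G f q) = B' (cosf G f q) := by
    intro q
    have hc := cosf_class hab hf q
    have hz : InZ G (cp (cosf G f q) p) := by
      refine ⟨fun g x => cp_class hc p g x, fun x hx => cp_supp (G := G) (q := q) ?_ p x ?_⟩
      · intro y hy
        exact if_neg hy
      · intro h2
        apply hx
        have h3 : q ^ p = 1 := by rw [← hG, pow_card_eq_one']
        rw [h3] at h2
        exact (QuotientGroup.eq_one_iff x).mp h2
    have h3 := h _ hz
    rw [block_cp hB hc, block_cp hB' hc] at h3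
    have h4 := sub_pow_char (p := p) (B (cosf G f q)) (B' (cosf G f q))
    rw [h3, sub_self] at h4
    exact sub_eq_zero.mp (pow_eq_zero_iff (Fact.out : p.Prime).ne_zero |>.mp h4)
  have : Fintype (Γ ⧸ G) := Fintype.ofFinite _
  have hz0 : ∀ {C : (Γ → F) → F}, IsBlock C → C 0 = 0 := by
    intro C hC
    have := hC.smul 0 (0 : Γ → F) (fun _ _ => rfl)
    rwa [zero_smul, zero_mul] at this
  have h2 : ∀ s : Finset (Γ ⧸ G), IsClassFun (∑ q ∈ s, cosf G f q) ∧
      B (∑ q ∈ s, cosf G f q) = B' (∑ q ∈ s, cosf G f q) := by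
    intro s
    induction s using Finset.induction_on with
    | empty =>
      rw [Finset.sum_empty, hz0 hB, hz0 hB']
      exact ⟨fun _ _ => rfl, rfl⟩
    | insert q s hq ih =>
      rw [Finset.sum_insert hq]
      have hc := cosf_class hab hf q
      refine ⟨fun g x => ?_, ?_⟩
      · rw [Pi.add_apply, Pi.add_apply, hc, ih.1]
      · rw [hB.add _ _ hc ih.1, hB'.add _ _ hc ih.1, h1, ih.2]
  have h3 : f = ∑ q : Γ ⧸ G, cosf G f q := by
    funext x
    rw [Finset.sum_apply]
    unfold cosf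
    rw [Finset.sum_ite_eq Finset.univ (x : Γ ⧸ G), if_pos (Finset.mem_univ _)]
  rw [h3]
  exact (h2 Finset.univ).2

/-- blocks of the subgroup `⊤` as blocks of `Γ` -/
lemma flat_block {B : ((⊤ : Subgroup Γ) → F) → F} (hB : IsBlock B) :
    IsBlock (fun f : Γ → F => B (fun x : (⊤ : Subgroup Γ) => f x)) := by
  have hres : ∀ f : Γ → F, IsClassFun f → IsClassFun (fun x : (⊤ : Subgroup Γ) => f x) :=
    fun f hf g x => hf g x
  refine ⟨fun f g hf hg => hB.add _ _ (hres f hf) (hres g hg),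
    fun a f hf => hB.smul a _ (hres f hf), ?_, fun f g hf hg => ?_⟩
  · have h1 : (fun x : (⊤ : Subgroup Γ) => (Pi.single 1 1 : Γ → F) x) = Pi.single 1 1 := by
      funext x
      by_cases hx : x = 1
      · subst hx
        rw [Pi.single_eq_same]
        exact Pi.single_eq_same (M := fun _ : Γ => F) 1 1
      · rw [Pi.single_eq_of_ne hx, Pi.single_eq_of_ne]
        intro h
        exact hx (Subtype.ext h)
    show B (fun x : (⊤ : Subgroup Γ) => (Pi.single 1 1 : Γ → F) x) = 1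
    rw [h1]
    convert hB.one
  · have h1 : (fun x : (⊤ : Subgroup Γ) => conv f g x) =
        conv (fun x : (⊤ : Subgroup Γ) => f x) (fun x : (⊤ : Subgroup Γ) => g x) := by
      funext x
      unfold conv
      rw [← finsum_comp_equiv (Subgroup.topEquiv (G := Γ)).toEquiv]
      rfl
    show B (fun x : (⊤ : Subgroup Γ) => conv f g x) = _
    rw [h1]
    exact hB.mul _ _ (hres f hf) (hres g hg)

/-- the functional of a block -/
def blkN {G N : Subgroup Γ} {B : (N → F) → F} (hB : IsBlock B) : ZG F G →ₗ[F] F where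
  toFun z := B (fun x : N => z.1 x)
  map_add' a b := hB.add _ _ (res_classFun a.2 N) (res_classFun b.2 N)
  map_smul' c a := hB.smul c _ (res_classFun a.2 N)

/-- FINL, with the finiteness of the number of irreducible traces -/
theorem finL_of (h0 : S_IRR) (h1 : S_SCHUR) (hwb : S_WBLK) : S_FINL := by
  intro p _ F _ _ _ red Γ _ _ G hG hpG hLW B hB hBinv
  have : Fintype Γ := Fintype.ofFinite Γ
  have hInf : Infinite F := inferInstance
  -- the blocks of the irreducible traces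
  have hfinφ : Finite {φ : (⊤ : Subgroup Γ) → F // IsIrrTrace φ} :=
    (h0 F (⊤ : Subgroup Γ)).1.to_subtype
  choose hne Bφ hBφ hact using
    fun φ : {φ : (⊤ : Subgroup Γ) → F // IsIrrTrace φ} => h1 F (⊤ : Subgroup Γ) φ.1 φ.2
  have hfinχ : ∀ Q : Subgroup Γ, Finite {χ : Subgroup.normalizer (Q : Set Γ) → ℂ //
      IsIrreducibleCharacter χ} := by
    intro Q
    have : Fintype (Subgroup.normalizer (Q : Set Γ)) := Fintype.ofFinite _
    exact (irr_finite (G := Subgroup.normalizer (Q : Set Γ))).to_subtype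
  -- the labels
  let I : Type := {φ : (⊤ : Subgroup Γ) → F // IsIrrTrace φ} ⊕
    (Σ Q : Subgroup Γ, {χ : Subgroup.normalizer (Q : Set Γ) → ℂ // IsIrreducibleCharacter χ})
  let μ : I → (ZG F G →ₗ[F] F) := fun i =>
    Sum.elim (fun φ => blkN (hBφ φ)) (fun q => wtF G red _ q.2.1) i
  obtain ⟨z, hz⟩ := exists_sep μ (blkN hB)
  set c : F := blkN (G := G) hB z with hc
  have hLWz := hLW z.1 z.2 c
  -- the left side
  have hL : Lsum (⊤ : Subgroup Γ) ⊤ z.1 c = (Nat.card Γ : ℤ) * numIBr (⊤ : Subgroup Γ) B := by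
    unfold Lsum
    rw [if_pos (sup_top_eq (⊤ : Subgroup Γ)), inf_top_eq]
    have e1 : Nat.card (⊤ : Subgroup Γ) = Nat.card Γ := Nat.card_congr Subgroup.topEquiv.toEquiv
    rw [e1]
    congr 2
    unfold Lnum numIBr
    refine Nat.card_congr (Equiv.subtypeEquivRight fun φ => ?_)
    constructor
    · rintro ⟨hφ, hinv, hzφ⟩
      refine ⟨hφ, hinv, ?_⟩
      obtain ⟨y, hy⟩ := hne ⟨φ, hφ⟩
      have h4 : Bφ ⟨φ, hφ⟩ (fun x : (⊤ : Subgroup Γ) => z.1 x) = c := by
        have h5 := hact ⟨φ, hφ⟩ (fun x : (⊤ : Subgroup Γ) => z.1 x) (res_classFun z.2 ⊤) y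
        have h6 := hzφ y
        exact mul_right_cancel₀ hy (h5.symm.trans h6)
      have h5 : blkN (G := G) (hBφ ⟨φ, hφ⟩) = blkN hB := hz (Sum.inl ⟨φ, hφ⟩) h4
      have h6 := frob p hpG (flat_block (hBφ ⟨φ, hφ⟩)) (flat_block hB) (fun z' hz' =>
        LinearMap.congr_fun h5 (⟨z', hz'⟩ : ZG F G))
      intro f hf x
      have h7 : Bφ ⟨φ, hφ⟩ f = B f := by
        have h8 := h6 (fun x : Γ => f ⟨x, trivial⟩) (fun g x => hf ⟨g, trivial⟩ ⟨x, trivial⟩)
        exact h8
      rw [← h7]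
      exact hact ⟨φ, hφ⟩ f hf x
    · rintro ⟨hφ, hinv, hzφ⟩
      exact ⟨hφ, hinv, fun x => hzφ _ (res_classFun z.2 ⊤) x⟩
  -- the right side
  set f : Subgroup Γ → ℕ :=
    fun Q => if (⊤ : Subgroup Γ) ⊔ Q = ⊤ then numDz p red (⊤ : Subgroup Γ) Q B else 0 with hf
  have hfc : ∀ (g : Γ) (Q : Subgroup Γ), f (Q.map (MulAut.conj g).toMonoidHom) = f Q := by
    intro g Q
    simp only [hf]
    rw [numDz_conj, propext (sup_conj (⊤ : Subgroup Γ) g Q)]
  have hNw : ∀ Q : Subgroup Γ, IsPGroup p Q →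
      Nw p red (Q.subgroupOf (⊤ ⊓ Subgroup.normalizer (Q : Set Γ)))
      (fun x => z.1 x) c = numDz p red (⊤ : Subgroup Γ) Q B := by
    intro Q hQ
    rw [top_inf_eq]
    unfold Nw numDz
    refine Nat.card_congr (Equiv.subtypeEquivRight fun χ => ?_)
    constructor
    · rintro ⟨hw, hv⟩
      refine ⟨hw, fun z' hz' => ?_⟩
      have h5 : wtF G red _ χ = blkN hB := hz (Sum.inr ⟨Q, χ, hw.irr⟩) hv
      exact frob p hpG (hwb p F red Γ Q χ hQ hw) (flat_block hB) (fun z'' hz'' =>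
        LinearMap.congr_fun h5 (⟨z'', hz''⟩ : ZG F G)) z' hz'.conj
    · rintro ⟨hw, hv⟩
      exact ⟨hw, hv z.1 ⟨z.2.conj, fun x hx => absurd trivial hx⟩⟩
  have hW : Wsum p red (⊤ : Subgroup Γ) ⊤ z.1 c = (Nat.card Γ : ℤ) *
      ((∑ᶠ c : Quotient (pSubgroupSetoid p Γ), f c.out.1 : ℕ) : ℤ) := by
    rw [← Nat.cast_mul, orbit_weights p f hfc]
    have : Fintype {Q : Subgroup Γ // IsPGroup p Q} := Fintype.ofFinite _
    have : Fintype (Subgroup Γ) := Fintype.ofFinite _
    unfold Wsum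
    rw [finsum_eq_sum_of_fintype, finsum_eq_sum_of_fintype, Nat.cast_sum]
    have h5 : ∀ Q : Subgroup Γ, (if IsPGroup p Q ∧ Q ≤ (⊤ : Subgroup Γ) ∧
        (⊤ : Subgroup Γ) ⊔ Q = ⊤ then
        (Nat.card ↥((⊤ : Subgroup Γ) ⊓ Subgroup.normalizer (Q : Set Γ)) : ℤ) *
        Nw p red (Q.subgroupOf (⊤ ⊓ Subgroup.normalizer (Q : Set Γ))) (fun x => z.1 x) c else 0)
        = if IsPGroup p Q then ((Nat.card (Subgroup.normalizer (Q : Set Γ)) * f Q : ℕ) : ℤ)
          else 0 := by
      intro Q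
      have e2 : Nat.card ↥((⊤ : Subgroup Γ) ⊓ Subgroup.normalizer (Q : Set Γ)) =
          Nat.card (Subgroup.normalizer (Q : Set Γ)) := by rw [top_inf_eq]
      rw [e2]
      by_cases hQ : IsPGroup p Q
      · rw [if_pos ⟨hQ, le_top, top_sup_eq Q⟩, if_pos hQ, hNw Q hQ]
        simp only [hf]
        rw [if_pos (top_sup_eq Q), Nat.cast_mul]
      · rw [if_neg (fun h => hQ h.1), if_neg hQ]
    rw [Finset.sum_congr rfl fun Q _ => h5 Q, ← Finset.sum_filter]
    exact Finset.sum_subtype (p := fun Q : Subgroup Γ => IsPGroup p Q)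
      (Finset.univ.filter fun Q : Subgroup Γ => IsPGroup p Q) (by simp)
      (fun Q => ((Nat.card (Subgroup.normalizer (Q : Set Γ)) * f Q : ℕ) : ℤ))
  rw [hL, hW] at hLWz
  have hpos : (Nat.card Γ : ℤ) ≠ 0 := by exact_mod_cast Nat.card_pos.ne'
  have h6 := mul_left_cancel₀ hpos hLWz
  exact_mod_cast h6

end Pool.Agent.Y286.NV
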