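import Pool.Agent.Y286.NV.FinL
import Pool.Agent.Y914.NV.Irr
import Pool.Agent.Y705.NV.Schur
import Pool.Agent.Y63.NV.Cutw
import Pool.Agent.Y930.NV.Cen
import Pool.Agent.Y930.NV.Wblk

/-!
# Project NV, part 4: FINL
-/

set_option autoImplicit false

namespace Pool.Agent.Y286.NV

open Pool.Agent.Y63.NV

theorem finL : S_FINL := finL_of Pool.Agent.Y914.NV.irr
  (Pool.Agent.Y705.NV.schur Pool.Agent.Y914.NV.irr)
  (Pool.Agent.Y930.NV.wblk Pool.Agent.Y930.NV.cvh (cutw Pool.Agent.Y930.NV.inf))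

end Pool.Agent.Y286.NV
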